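import Mathlib

/-!
# Bounded arithmetic with one new relation symbol: syntax, structures, theories (MP_610017_lc)

THEOREM (relativised form of Q1). There is a bounded formula `θ` in the language of arithmetic
with one new relation symbol `R` which holds in every model of `I Delta_0 (R) + Omega_1` and fails
in some model of `I Delta_0 (R)` (which moreover satisfies all bounded formulas without `R` that
are true in the standard model).
-/

set_option autoImplicit false

namespace Pool.Agent.Work.MP_610017_lc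

/-- Terms of the language `0, S, +, *` with free variables in `Fin v`. -/
inductive Tm (v : ℕ) : Type
  | var (i : Fin v) : Tm v
  | zero : Tm v
  | succ (s : Tm v) : Tm v
  | add (s t : Tm v) : Tm v
  | mul (s t : Tm v) : Tm v

/-- Bounded formulas (with free variables in `Fin v`) of the language `0, S, +, *, ≤, R`, where
`R` is a relation symbol with five arguments. `bex t φ` is `∃ x ≤ t, φ`; the variable `x` is
variable `0` of `φ`, and it does not occur in `t`. -/
inductive Fm : ℕ → Type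
  | eq {v : ℕ} (s t : Tm v) : Fm v
  | le {v : ℕ} (s t : Tm v) : Fm v
  | rel {v : ℕ} (s : Fin 5 → Tm v) : Fm v
  | neg {v : ℕ} (φ : Fm v) : Fm v
  | and {v : ℕ} (φ ψ : Fm v) : Fm v
  | bex {v : ℕ} (t : Tm v) (φ : Fm (v + 1)) : Fm v

/-- the formula does not contain the relation symbol `R` -/
def Fm.RFree : {v : ℕ} → Fm v → Prop
  | _, .eq _ _ => True
  | _, .le _ _ => True
  | _, .rel _ => False
  | _, .neg φ => φ.RFree
  | _, .and φ ψ => φ.RFree ∧ ψ.RFree
  | _, .bex _ φ => φ.RFree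

/-- Structures for the language `0, S, +, *, ≤, R`. -/
structure Str (M : Type) where
  zero : M
  succ : M → M
  add : M → M → M
  mul : M → M → M
  le : M → M → Prop
  rel : (Fin 5 → M) → Prop

/-- value of a term -/
def Tm.val {M : Type} (N : Str M) {v : ℕ} (e : Fin v → M) : Tm v → M
  | .var i => e i
  | .zero => N.zero
  | .succ s => N.succ (s.val N e)
  | .add s t => N.add (s.val N e) (t.val N e)
  | .mul s t => N.mul (s.val N e) (t.val N e)

/-- satisfaction -/
def Fm.sat {M : Type} (N : Str M) : {v : ℕ} → Fm v → (Fin v → M) → Prop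
  | _, .eq s t, e => s.val N e = t.val N e
  | _, .le s t, e => N.le (s.val N e) (t.val N e)
  | _, .rel s, e => N.rel (fun i => (s i).val N e)
  | _, .neg φ, e => ¬ φ.sat N e
  | _, .and φ ψ, e => φ.sat N e ∧ ψ.sat N e
  | _, .bex t φ, e => ∃ x : M, N.le x (t.val N e) ∧ φ.sat N (Fin.cons x e)

/-- The standard model (with the empty relation). -/
def stdN : Str ℕ where
  zero := 0
  succ := fun x => x + 1
  add := fun x y => x + y
  mul := fun x y => x * y
  le := fun x y => x ≤ y
  rel := fun _ => False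

/-- Robinson arithmetic -/
structure Robinson {M : Type} (N : Str M) : Prop where
  succ_ne : ∀ x, N.succ x ≠ N.zero
  succ_inj : ∀ x y, N.succ x = N.succ y → x = y
  pred : ∀ x, x ≠ N.zero → ∃ y, x = N.succ y
  add_zero : ∀ x, N.add x N.zero = x
  add_succ : ∀ x y, N.add x (N.succ y) = N.succ (N.add x y)
  mul_zero : ∀ x, N.mul x N.zero = N.zero
  mul_succ : ∀ x y, N.mul x (N.succ y) = N.add (N.mul x y) x
  le_iff : ∀ x y, N.le x y ↔ ∃ z, N.add z x = y

/-- the induction scheme for bounded formulas, with parameters -/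
def Induction {M : Type} (N : Str M) : Prop :=
  ∀ (v : ℕ) (φ : Fm (v + 1)) (e : Fin v → M), φ.sat N (Fin.cons N.zero e) →
    (∀ x, φ.sat N (Fin.cons x e) → φ.sat N (Fin.cons (N.succ x) e)) →
    ∀ x, φ.sat N (Fin.cons x e)

/-- `N` is a model of `I Delta_0 (R)`. -/
def IDelta0 {M : Type} (N : Str M) : Prop := Robinson N ∧ Induction N

/-- `z = x ^ l` in the structure `N`: there is a function `f` with `f 0 = 1`, `f (i + 1) = f i * x`
for `i < l`, `f l = z`, whose graph on `{i | i ≤ l}` is definable by a bounded formula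
with parameters. -/
def IsPow {M : Type} (N : Str M) (x l z : M) : Prop :=
  ∃ (v : ℕ) (φ : Fm (v + 2)) (e : Fin v → M) (f : M → M),
    (∀ i w, N.le i l → (φ.sat N (Fin.cons i (Fin.cons w e)) ↔ w = f i)) ∧
    f N.zero = N.succ N.zero ∧
    (∀ i, N.le (N.succ i) l → f (N.succ i) = N.mul (f i) x) ∧ f l = z

/-- `Omega_1`: for all `x ≠ 0` the power `x ^ [log x]` exists. Here `l = [log x]` is given by
`2 ^ l ≤ x < 2 ^ (l + 1)`. -/
def Omega1 {M : Type} (N : Str M) : Prop :=
  ∀ x, x ≠ N.zero → ∃ l u z, IsPow N (N.succ (N.succ N.zero)) l u ∧ N.le u x ∧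
    ¬ N.le (N.mul (N.succ (N.succ N.zero)) u) x ∧ IsPow N x l z

/-! ### The sentence -/

/-- strict order -/
def Str.lt {M : Type} (N : Str M) (x y : M) : Prop := N.le x y ∧ x ≠ y

/-- numerals -/
def Str.num {M : Type} (N : Str M) : ℕ → M
  | 0 => N.zero
  | j + 1 => N.succ (N.num j)

/-- `H x y a b`: the right neighbour of the element `(x, y, a)` is `(x + 1, y, b)`. -/
def Str.H {M : Type} (N : Str M) (x y a b : M) : Prop := N.rel ![N.num 0, x, y, a, b]

/-- `U x y a b`: the upper neighbour of the element `(x, y, a)` is `(x, y + 1, b)`. -/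
def Str.U {M : Type} (N : Str M) (x y a b : M) : Prop := N.rel ![N.num 1, x, y, a, b]

/-- `C x y a`: the colour of the element `(x, y, a)`. -/
def Str.C {M : Type} (N : Str M) (x y a : M) : Prop := N.rel ![N.num 2, x, y, a, N.num 0]

/-- `P i u`: `u = 2 ^ i`. -/
def Str.P {M : Type} (N : Str M) (i u : M) : Prop := N.rel ![N.num 3, i, u, N.num 0, N.num 0]

/-- The hypothesis of the principle: `R` codes `2 ^ i` for `i ≤ k` with `2 ^ k ≤ n` and a covering
of the grid `[0, k] ^ 2` with `n` sheets (labels `< n`) with a colour that contradicts the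
triviality of coverings of the disc. -/
structure Hyp {M : Type} (N : Str M) (n k : M) : Prop where
  k_pos : N.lt N.zero k
  pow_zero : ∀ u, N.le u n → N.P N.zero u → u = N.num 1
  pow_total : ∀ i, N.le i k → ∃ u, N.le u n ∧ N.P i u
  pow_succ : ∀ i u u', N.lt i k → N.le u n → N.le u' n → N.P i u → N.P (N.succ i) u' →
    u' = N.add u u
  h_total : ∀ x y a, N.lt x k → N.le y k → N.lt a n → ∃ b, N.lt b n ∧ N.H x y a b
  u_total : ∀ x y a, N.le x k → N.lt y k → N.lt a n → ∃ b, N.lt b n ∧ N.U x y a b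
  comm : ∀ x y a b c d, N.lt x k → N.lt y k → N.lt a n → N.lt b n → N.lt c n → N.lt d n →
    N.H x y a b → N.U x y a d → N.U (N.succ x) y b c → N.H x (N.succ y) d c
  col_bot : ∀ x a b, N.lt N.zero x → N.lt x k → N.lt a n → N.lt b n → N.H x N.zero a b →
    (N.C x N.zero a ↔ N.C (N.succ x) N.zero b)
  col_top : ∀ x a b, N.lt x k → N.lt a n → N.lt b n → N.H x k a b →
    (N.C x k a ↔ N.C (N.succ x) k b)
  col_left : ∀ y a b, N.lt N.zero y → N.lt y k → N.lt a n → N.lt b n → N.U N.zero y a b →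
    (N.C N.zero y a ↔ N.C N.zero (N.succ y) b)
  col_right : ∀ y a b, N.lt y k → N.lt a n → N.lt b n → N.U k y a b →
    (N.C k y a ↔ N.C k (N.succ y) b)
  start_h : ∀ b, N.lt b n → N.H N.zero N.zero N.zero b → N.C (N.num 1) N.zero b
  start_u : ∀ b, N.lt b n → N.U N.zero N.zero N.zero b → ¬ N.C N.zero (N.num 1) b

/-- The negation of `Hyp` is expressed by a bounded formula in two variables. -/
def S_Theta : Prop := ∃ θ : Fm 2, ∀ (M : Type) (N : Str M),
  ∀ e : Fin 2 → M, θ.sat N e ↔ ¬ Hyp N (e 0) (e 1)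

/-- The upper side. -/
def S_Upper : Prop := ∀ (M : Type) (N : Str M), IDelta0 N → Omega1 N → ∀ n k : M, ¬ Hyp N n k

/-- The lower side. -/
def S_Lower : Prop := ∃ (M : Type) (N : Str M), IDelta0 N ∧
  (∀ (v : ℕ) (φ : Fm v), φ.RFree → (∀ e, φ.sat stdN e) → ∀ e, φ.sat N e) ∧
  ∃ n k : M, Hyp N n k

/-- The main theorem. -/
def S_Main : Prop := ∃ θ : Fm 2,
  (∀ (M : Type) (N : Str M), IDelta0 N → Omega1 N → ∀ e, θ.sat N e) ∧
  ∃ (M : Type) (N : Str M), IDelta0 N ∧
    (∀ (v : ℕ) (φ : Fm v), φ.RFree → (∀ e, φ.sat stdN e) → ∀ e, φ.sat N e) ∧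
    ∃ e, ¬ θ.sat N e

theorem main_of (hT : S_Theta) (hU : S_Upper) (hL : S_Lower) : S_Main := by
  obtain ⟨θ, hθ⟩ := hT
  refine ⟨θ, ?_, ?_⟩
  · intro M N h1 h2 e
    rw [hθ]
    exact hU M N h1 h2 _ _
  · obtain ⟨M, N, h1, h2, n, k, h3⟩ := hL
    refine ⟨M, N, h1, h2, ![n, k], ?_⟩
    rw [hθ]
    simpa using h3

/-! ### Internal syntax: bounded formulas with an extra constructor for induction instances -/

/-- Bounded formulas with one more constructor: `ind φ`, at the assignment `e`, is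
`∃ x ≤ e 0, φ x ∧ ¬ φ (x + 1)`, where `φ x` means `φ` at the assignment `x, e 1, e 2, …`. -/
inductive Gm : ℕ → Type
  | eq {v : ℕ} (s t : Tm v) : Gm v
  | le {v : ℕ} (s t : Tm v) : Gm v
  | rel {v : ℕ} (s : Fin 5 → Tm v) : Gm v
  | neg {v : ℕ} (φ : Gm v) : Gm v
  | and {v : ℕ} (φ ψ : Gm v) : Gm v
  | bex {v : ℕ} (t : Tm v) (φ : Gm (v + 1)) : Gm v
  | ind {v : ℕ} (φ : Gm (v + 1)) : Gm (v + 1)

/-- satisfaction -/
def Gm.sat {M : Type} (N : Str M) : {v : ℕ} → Gm v → (Fin v → M) → Prop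
  | _, .eq s t, e => s.val N e = t.val N e
  | _, .le s t, e => N.le (s.val N e) (t.val N e)
  | _, .rel s, e => N.rel (fun i => (s i).val N e)
  | _, .neg φ, e => ¬ φ.sat N e
  | _, .and φ ψ, e => φ.sat N e ∧ ψ.sat N e
  | _, .bex t φ, e => ∃ x : M, N.le x (t.val N e) ∧ φ.sat N (Fin.cons x e)
  | _, .ind φ, e => ∃ x : M, N.le x (e 0) ∧ φ.sat N (Fin.cons x (Fin.tail e)) ∧
      ¬ φ.sat N (Fin.cons (N.succ x) (Fin.tail e))

/-- embedding of the bounded formulas into the internal formulas -/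
def Fm.toGm : {v : ℕ} → Fm v → Gm v
  | _, .eq s t => .eq s t
  | _, .le s t => .le s t
  | _, .rel s => .rel s
  | _, .neg φ => .neg φ.toGm
  | _, .and φ ψ => .and φ.toGm ψ.toGm
  | _, .bex t φ => .bex t φ.toGm

theorem Fm.sat_toGm {M : Type} (N : Str M) {v : ℕ} (φ : Fm v) (e : Fin v → M) :
    φ.toGm.sat N e ↔ φ.sat N e := by
  induction φ with
  | eq s t => rfl
  | le s t => rfl
  | rel s => rfl
  | neg φ ih => simp only [Fm.toGm, Gm.sat, Fm.sat, ih]
  | and φ ψ ih1 ih2 => simp only [Fm.toGm, Gm.sat, Fm.sat, ih1, ih2]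
  | bex t φ ih => simp only [Fm.toGm, Gm.sat, Fm.sat, ih]

end Pool.Agent.Work.MP_610017_lc
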