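import Mathlib
import Pool.Agent.Work.MP_610017_lc.Logic

/-!
# The finite combinatorics: grid, sheets, facts, trees, restrictions (MP_610017_lc)
-/

set_option autoImplicit false

namespace Pool.Agent.Work.MP_610017_lc

/-- vertices of the grid `[0, k] ^ 2` -/
abbrev Vx (k : ℕ) : Type := Fin (k + 1) × Fin (k + 1)

/-- labels, and indices of sheets (index `0` is the special sheet) -/
abbrev Lb (n : ℕ) : Type := Fin (n + 1)

/-- clipped successor -/
def up1 {k : ℕ} (x : Fin (k + 1)) : Fin (k + 1) := ⟨min (x.val + 1) k, by omega⟩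

/-- clipped predecessor -/
def dn1 {k : ℕ} (x : Fin (k + 1)) : Fin (k + 1) := ⟨x.val - 1, by omega⟩

/-- neighbours: `0` right, `1` up, `2` left, `3` down (clipped at the boundary) -/
def nb {k : ℕ} (v : Vx k) (d : Fin 4) : Vx k :=
  if d = 0 then (up1 v.1, v.2) else if d = 1 then (v.1, up1 v.2) else
    if d = 2 then (dn1 v.1, v.2) else (v.1, dn1 v.2)

/-- the corner `(0, 0)` -/
def crn (k : ℕ) : Vx k := (0, 0)

/-- the vertices with a colour: boundary without the corner `(0, 0)` -/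
def bd {k : ℕ} (v : Vx k) : Bool :=
  decide ((v.1.val = 0 ∨ v.1.val = k ∨ v.2.val = 0 ∨ v.2.val = k) ∧
    ¬ (v.1.val = 0 ∧ v.2.val = 0))

/-- the colour of the special sheet in a true world: `true` on the bottom axis, `false` on the
left axis, undefined elsewhere (in particular for `x = k` or `y = k`) -/
def spec {k : ℕ} (v : Vx k) : Option Bool :=
  if v.2.val = 0 ∧ 1 ≤ v.1.val ∧ v.1.val < k then some true
  else if v.1.val = 0 ∧ 1 ≤ v.2.val ∧ v.2.val < k then some false else none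

/-- A covering: `β v i` is the label of the sheet `i` at the vertex `v`; `ζ i` is the colour
of the sheet `i ≠ 0`, and `χ v` the colour of the special sheet at `v`. -/
structure GW (k n : ℕ) where
  β : Vx k → Equiv.Perm (Lb n)
  ζ : Lb n → Bool
  χ : Vx k → Option Bool

/-- Facts. `edge v w a b`: the elements `(v, a)` and `(w, b)` are on the same sheet.
`col v a c`: the element `(v, a)` has colour `c`. -/
inductive Fact (k n : ℕ) : Type
  | edge (v w : Vx k) (a b : Lb n) : Fact k n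
  | col (v : Vx k) (a : Lb n) (c : Bool) : Fact k n
  deriving DecidableEq

/-- truth of a fact in a covering -/
def holds {k n : ℕ} (ω : GW k n) : Fact k n → Prop
  | .edge v w a b => (ω.β v).symm a = (ω.β w).symm b
  | .col v a c => if (ω.β v).symm a = 0 then ω.χ v = some c else ω.ζ ((ω.β v).symm a) = c

/-- edges join neighbours and colours are at coloured vertices -/
def Valid {k n : ℕ} : Fact k n → Prop
  | .edge v w _ _ => ∃ d, w = nb v d
  | .col v _ _ => bd v = true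

/-- the elements of a fact -/
def touch {k n : ℕ} : Fact k n → Finset (Vx k × Lb n)
  | .edge v w a b => {(v, a), (w, b)}
  | .col v a _ => {(v, a)}

/-- Restrictions: the sheets with index outside `I` are known. -/
structure Res (k n : ℕ) where
  β : Vx k → Equiv.Perm (Lb n)
  ζ : Lb n → Bool
  I : Finset (Lb n)
  zero_mem : (0 : Lb n) ∈ I
  corner : β (crn k) 0 = 0

/-- `(β, ζ)` extends the restriction `ρ` -/
structure Ext {k n : ℕ} (ρ : Res k n) (β : Vx k → Equiv.Perm (Lb n)) (ζ : Lb n → Bool) :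
    Prop where
  beta : ∀ v i, i ∉ ρ.I → β v i = ρ.β v i
  zeta : ∀ i, i ∉ ρ.I → ζ i = ρ.ζ i
  corner : β (crn k) 0 = 0

/-- `ρ'` is a further restriction of `ρ` -/
def Res.Le {k n : ℕ} (ρ' ρ : Res k n) : Prop := ρ'.I ⊆ ρ.I ∧ Ext ρ ρ'.β ρ'.ζ

/-- `F` is consistent with `ρ` -/
def Con {k n : ℕ} (ρ : Res k n) (F : Finset (Fact k n)) : Prop :=
  ∃ ω : GW k n, Ext ρ ω.β ω.ζ ∧ ω.χ = spec ∧ ∀ f ∈ F, holds ω f

/-- the fact is true on a known sheet -/
def SetTrue {k n : ℕ} (ρ : Res k n) : Fact k n → Prop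
  | .edge v w a b => ∃ i, i ∉ ρ.I ∧ ρ.β v i = a ∧ ρ.β w i = b
  | .col v a c => ∃ i, i ∉ ρ.I ∧ ρ.β v i = a ∧ ρ.ζ i = c

/-- the fact is decided (true) by `ρ` and `π` -/
def Dec {k n : ℕ} (ρ : Res k n) (π : Finset (Fact k n)) (f : Fact k n) : Prop :=
  f ∈ π ∨ SetTrue ρ f

/-! ### Trees -/

/-- Decision trees. A node queries an element `(v, a)`; the answer is the function `b` of the
labels of its four neighbours, and its colour (`false` if `v` has no colour). -/
inductive Tree (k n : ℕ) : Type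
  | leaf (r : Bool) : Tree k n
  | node (v : Vx k) (a : Lb n) (next : (Fin 4 → Lb n) → Bool → Tree k n) : Tree k n

/-- the height is at most `h` -/
def HLe {k n : ℕ} : ℕ → Tree k n → Prop
  | _, .leaf _ => True
  | 0, .node _ _ _ => False
  | h + 1, .node _ _ next => ∀ b c, HLe h (next b c)

/-- the facts given by an answer -/
def star {k n : ℕ} (v : Vx k) (a : Lb n) (b : Fin 4 → Lb n) (c : Bool) : Finset (Fact k n) :=
  (Finset.univ.image fun d => Fact.edge v (nb v d) a (b d)) ∪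
    (Finset.univ.image fun d => Fact.edge (nb v d) v (b d) a) ∪
    (if bd v = true then {Fact.col v a c} else ∅)

/-- `Br T F r`: the tree `T` has a branch with set of facts `F` and label `r`. -/
inductive Br {k n : ℕ} : Tree k n → Finset (Fact k n) → Bool → Prop
  | leaf (r : Bool) : Br (.leaf r) ∅ r
  | node (v : Vx k) (a : Lb n) (next : (Fin 4 → Lb n) → Bool → Tree k n) (b : Fin 4 → Lb n)
      (c : Bool) (F : Finset (Fact k n)) (r : Bool) (hc : bd v = true ∨ c = false)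
      (h : Br (next b c) F r) : Br (.node v a next) (star v a b c ∪ F) r

/-- exchange the labels of the leaves -/
def Tree.flip {k n : ℕ} : Tree k n → Tree k n
  | .leaf r => .leaf (!r)
  | .node v a next => .node v a fun b c => (next b c).flip

/-- conjunction: first `T1`, then `T2` -/
def andT {k n : ℕ} : Tree k n → Tree k n → Tree k n
  | .leaf true, T2 => T2
  | .leaf false, _ => .leaf false
  | .node v a next, T2 => .node v a fun b c => andT (next b c) T2

/-- evaluation of a tree in a covering: facts of the branch and label -/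
def ev {k n : ℕ} (ω : GW k n) : Tree k n → Finset (Fact k n) × Bool
  | .leaf r => (∅, r)
  | .node v a next =>
    let i := (ω.β v).symm a
    let b : Fin 4 → Lb n := fun d => ω.β (nb v d) i
    let c : Bool := bd v && (if i = 0 then (ω.χ v).getD false else ω.ζ i)
    (star v a b c ∪ (ev ω (next b c)).1, (ev ω (next b c)).2)

/-- `T` decides the disjunction, over `x ≤ m`, of the trees `Tx x`. -/
def OrRep {k n : ℕ} (ρ : Res k n) (h m : ℕ) (Tx : ℕ → Tree k n) (T : Tree k n) : Prop :=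
  HLe h T ∧
  (∀ F, Br T F true → Con ρ F → ∃ x, x ≤ m ∧ ∃ F', Br (Tx x) F' true ∧ ∀ f ∈ F', Dec ρ F f) ∧
  (∀ F, Br T F false → ∀ x, x ≤ m → ∀ F', Br (Tx x) F' true → ¬ Con ρ (F ∪ F'))

/-- the tree of an atomic formula `R t` -/
def relTree (k n : ℕ) (t : Fin 5 → ℕ) : Tree k n :=
  if t 0 = 0 ∧ t 1 < k ∧ t 2 ≤ k ∧ t 3 ≤ n ∧ t 4 ≤ n then
    .node (Fin.ofNat (k + 1) (t 1), Fin.ofNat (k + 1) (t 2)) (Fin.ofNat (n + 1) (t 3))
      fun b _ => .leaf (decide (b 0 = Fin.ofNat (n + 1) (t 4)))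
  else if t 0 = 1 ∧ t 1 ≤ k ∧ t 2 < k ∧ t 3 ≤ n ∧ t 4 ≤ n then
    .node (Fin.ofNat (k + 1) (t 1), Fin.ofNat (k + 1) (t 2)) (Fin.ofNat (n + 1) (t 3))
      fun b _ => .leaf (decide (b 1 = Fin.ofNat (n + 1) (t 4)))
  else if t 0 = 2 ∧ t 1 ≤ k ∧ t 2 ≤ k ∧ t 3 ≤ n ∧ t 4 = 0 ∧
      bd ((Fin.ofNat (k + 1) (t 1), Fin.ofNat (k + 1) (t 2)) : Vx k) = true then
    .node (Fin.ofNat (k + 1) (t 1), Fin.ofNat (k + 1) (t 2)) (Fin.ofNat (n + 1) (t 3))
      fun _ c => .leaf c
  else .leaf (decide (t 0 = 3 ∧ t 1 ≤ k ∧ t 2 = 2 ^ (t 1) ∧ t 3 = 0 ∧ t 4 = 0))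

/-- `T` is a tree for the formula `φ` at the assignment `e` (in the restriction `ρ`). -/
def Rep {k n : ℕ} (ρ : Res k n) (h : ℕ) : {v : ℕ} → Gm v → (Fin v → ℕ) → Tree k n → Prop
  | _, .eq s t, e, T => T = .leaf (decide (s.val stdN e = t.val stdN e))
  | _, .le s t, e, T => T = .leaf (decide (s.val stdN e ≤ t.val stdN e))
  | _, .rel s, e, T => HLe h T ∧ T = relTree k n (fun i => (s i).val stdN e)
  | _, .neg φ, e, T => ∃ T1, T = T1.flip ∧ Rep ρ h φ e T1
  | _, .and φ ψ, e, T => HLe h T ∧ ∃ T1 T2, T = andT T1 T2 ∧ Rep ρ h φ e T1 ∧ Rep ρ h ψ e T2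
  | _, .bex t φ, e, T => ∃ Tx : ℕ → Tree k n,
      (∀ x, x ≤ t.val stdN e → Rep ρ h φ (Fin.cons x e) (Tx x)) ∧
      OrRep ρ h (t.val stdN e) Tx T
  | _, .ind φ, e, T => ∃ Tx : ℕ → Tree k n,
      (∀ x, x ≤ e 0 + 1 → Rep ρ h φ (Fin.cons x (Fin.tail e)) (Tx x)) ∧
      OrRep ρ h (e 0) (fun x => andT (Tx x) (Tx (x + 1)).flip) T

/-- The facts in `F` reveal the special sheet in the box `[0, r] ^ 2`. -/
def SB {k n : ℕ} (r : ℕ) (F : Finset (Fact k n)) : Prop :=
  ∀ ω : GW k n, ω.β (crn k) 0 = 0 → (∀ f ∈ F, holds ω f) →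
    ∀ v : Vx k, v.1.val ≤ r → v.2.val ≤ r →
      ∀ f, Valid f → (v, ω.β v 0) ∈ touch f → holds ω f → f ∈ F

/-- The covering `ρ.β` whose special sheet has colour `true` on `1 ≤ x ≤ N`, `y = 0` and
`false` elsewhere. -/
def gw {k n : ℕ} (ρ : Res k n) (N : ℕ) : GW k n where
  β := ρ.β
  ζ := ρ.ζ
  χ := fun v => some (decide (v.2.val = 0 ∧ 1 ≤ v.1.val ∧ v.1.val ≤ N))

/-- `Bad ρ π 𝓣 q`: no term of the family `𝓣` is decided by `ρ` and `π`, and there are `q`
consistent terms whose undecided parts touch disjoint sets of elements. -/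
def Bad {k n : ℕ} (ρ : Res k n) (π : Finset (Fact k n)) (𝓣 : Set (Finset (Fact k n)))
    (q : ℕ) : Prop :=
  (¬ ∃ F ∈ 𝓣, ∀ f ∈ F, Dec ρ π f) ∧
  ∃ Fs : Fin q → Finset (Fact k n), (∀ j, Fs j ∈ 𝓣 ∧ Con ρ (π ∪ Fs j)) ∧
    ∀ j j', j ≠ j' → ∀ f ∈ Fs j, ¬ Dec ρ π f → ∀ f' ∈ Fs j', ¬ Dec ρ π f' →
      Disjoint (touch f) (touch f')

/-- `T` decides, given `π`, whether a term of the family `𝓣` is true. -/
def OrSet {k n : ℕ} (ρ : Res k n) (π : Finset (Fact k n)) (𝓣 : Set (Finset (Fact k n)))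
    (T : Tree k n) : Prop :=
  (∀ P, Br T P true → Con ρ (π ∪ P) → ∃ F ∈ 𝓣, ∀ f ∈ F, Dec ρ (π ∪ P) f) ∧
  (∀ P, Br T P false → ∀ F ∈ 𝓣, ¬ Con ρ (π ∪ P ∪ F))

/-- A group: a part of one sheet with a colour. -/
structure Grp (k n : ℕ) where
  supp : Finset (Vx k)
  p : Vx k → Lb n
  c : Bool

/-- the fact is on the group -/
def Carries {k n : ℕ} (G : Grp k n) : Fact k n → Prop
  | .edge v w a b => v ∈ G.supp ∧ w ∈ G.supp ∧ G.p v = a ∧ G.p w = b
  | .col v a c => v ∈ G.supp ∧ G.p v = a ∧ G.c = c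

end Pool.Agent.Work.MP_610017_lc
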