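import Mathlib
import Pool.Agent.Work.MP_610017_lc.StmtsA

/-!
# MP_610017_lc, block A, item Ext1: the extension property for one query
-/

set_option autoImplicit false

namespace Pool.Agent.Work.MP_610017_lc

/-- the easy cases -/
theorem Ext1_easy {k n : ℕ} (ρ : Res k n) (F : Finset (Fact k n)) (v : Vx k) (a : Lb n)
    (ω : GW k n) (hext : Ext ρ ω.β ω.ζ) (hχ : ω.χ = spec) (hF : ∀ f ∈ F, holds ω f)
    (h : (ω.β v).symm a ≠ 0 ∨ bd v = false ∨ ∃ c0, spec v = some c0) :
    ∃ b c, (bd v = true ∨ c = false) ∧ Con ρ (F ∪ star v a b c) := by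
  classical
  have key : ∃ c : Bool, (bd v = true ∨ c = false) ∧ (bd v = true → holds ω (Fact.col v a c)) := by
    cases hb : bd v with
    | false => exact ⟨false, Or.inr rfl, fun h => absurd h (by simp)⟩
    | true =>
      by_cases hi : (ω.β v).symm a = 0
      · rcases h with h | h | ⟨c0, h⟩
        · exact absurd hi h
        · rw [hb] at h
          exact absurd h (by simp)
        · refine ⟨c0, Or.inl rfl, fun _ => ?_⟩
          show if (ω.β v).symm a = 0 then ω.χ v = some c0 else ω.ζ ((ω.β v).symm a) = c0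
          rw [if_pos hi, hχ, h]
      · refine ⟨ω.ζ ((ω.β v).symm a), Or.inl rfl, fun _ => ?_⟩
        show if (ω.β v).symm a = 0 then ω.χ v = some _ else ω.ζ ((ω.β v).symm a) = _
        rw [if_neg hi]
  obtain ⟨c, hc1, hc2⟩ := key
  refine ⟨fun d => ω.β (nb v d) ((ω.β v).symm a), c, hc1, ω, hext, hχ, ?_⟩
  intro f hf
  rcases Finset.mem_union.1 hf with hf | hf
  · exact hF f hf
  · unfold star at hf
    rcases Finset.mem_union.1 hf with hf | hf
    · rcases Finset.mem_union.1 hf with hf | hf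
      · obtain ⟨d, _, rfl⟩ := Finset.mem_image.1 hf
        show (ω.β v).symm a = (ω.β (nb v d)).symm (ω.β (nb v d) ((ω.β v).symm a))
        rw [Equiv.symm_apply_apply]
      · obtain ⟨d, _, rfl⟩ := Finset.mem_image.1 hf
        show (ω.β (nb v d)).symm (ω.β (nb v d) ((ω.β v).symm a)) = (ω.β v).symm a
        rw [Equiv.symm_apply_apply]
    · split_ifs at hf with hb
      · rw [Finset.mem_singleton] at hf
        rw [hf]
        exact hc2 hb
      · simp at hf

/-- a value which is not the minimum of the levels of an edge of `F` -/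
def Ext1_lev {k n : ℕ} (g : Vx k → ℕ) : Fact k n → ℕ
  | .edge v w _ _ => min (g v) (g w)
  | .col _ _ _ => 0

theorem Ext1_cut {k n : ℕ} (F : Finset (Fact k n)) (g : Vx k → ℕ)
    (hg : ∀ v d, g (nb v d) ≤ g v + 1 ∧ g v ≤ g (nb v d) + 1) (hV : ∀ f ∈ F, Valid f) (l : ℕ) :
    ∃ j, l ≤ j ∧ j ≤ l + F.card ∧ ∀ v w a b, Fact.edge v w a b ∈ F → (g v ≤ j ↔ g w ≤ j) := by
  classical
  have h1 : ((Finset.Icc l (l + F.card)) \ (F.image (Ext1_lev g))).Nonempty := by
    rw [← Finset.card_pos]
    have h2 := Finset.le_card_sdiff (F.image (Ext1_lev g)) (Finset.Icc l (l + F.card))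
    have h3 : (F.image (Ext1_lev g)).card ≤ F.card := Finset.card_image_le
    rw [Nat.card_Icc] at h2
    omega
  obtain ⟨j, hj⟩ := h1
  rw [Finset.mem_sdiff, Finset.mem_Icc] at hj
  refine ⟨j, hj.1.1, hj.1.2, ?_⟩
  intro v w a b hf
  obtain ⟨d, rfl⟩ : ∃ d, w = nb v d := hV _ hf
  have h4 : min (g v) (g (nb v d)) ≠ j := fun h => hj.2 (Finset.mem_image.2 ⟨_, hf, h⟩)
  have h5 := hg v d
  omega

/-- the index of a fact -/
def Ext1_idx {k n : ℕ} (ω : GW k n) : Fact k n → Lb n
  | .edge v _ a _ => (ω.β v).symm a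
  | .col v a _ => (ω.β v).symm a

theorem Ext1_idx_eq {k n : ℕ} (ω : GW k n) (f : Fact k n) (hf : holds ω f) (v : Vx k) (a : Lb n)
    (h : (v, a) ∈ touch f) : (ω.β v).symm a = Ext1_idx ω f := by
  cases f with
  | edge v' w' a' b' =>
    have h1 : (v, a) ∈ ({(v', a'), (w', b')} : Finset (Vx k × Lb n)) := h
    rw [Finset.mem_insert, Finset.mem_singleton] at h1
    rcases h1 with h1 | h1
    · rw [Prod.mk.injEq] at h1
      obtain ⟨rfl, rfl⟩ := h1
      rfl
    · rw [Prod.mk.injEq] at h1
      obtain ⟨rfl, rfl⟩ := h1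
      exact hf.symm
  | col v' a' c' =>
    have h1 : (v, a) ∈ ({(v', a')} : Finset (Vx k × Lb n)) := h
    rw [Finset.mem_singleton, Prod.mk.injEq] at h1
    obtain ⟨rfl, rfl⟩ := h1
    rfl

theorem Ext1_max {k : ℕ} (v : Vx k) (hb : bd v = true) (hs : spec v = none) :
    max v.1.val v.2.val = k := by
  unfold bd at hb
  rw [decide_eq_true_eq] at hb
  unfold spec at hs
  have h1 := v.1.isLt
  have h2 := v.2.isLt
  split_ifs at hs with h3 h4
  omega

theorem prf_Ext1 (hR : S_Reroute) (hL : S_NbLevel) (_hV : S_StarValid) : S_Ext1 := by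
  classical
  intro k n ρ F v a hVal hCon hk hI
  obtain ⟨ω, hext, hχ, hF⟩ := hCon
  by_cases heasy : (ω.β v).symm a ≠ 0 ∨ bd v = false ∨ ∃ c0, spec v = some c0
  · exact Ext1_easy ρ F v a ω hext hχ hF heasy
  push Not at heasy
  obtain ⟨h0, hb, hs⟩ := heasy
  have hb' : bd v = true := by
    cases h : bd v with
    | false => exact absurd h hb
    | true => rfl
  have hs' : spec v = none := by
    cases h : spec v with
    | none => rfl
    | some c => exact absurd h (hs c)
  have hmax := Ext1_max v hb' hs'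
  obtain ⟨j, _, hj2, hj3⟩ := Ext1_cut F (fun u => u.2.val) (fun v d => (hL k v d).1) hVal 0
  obtain ⟨d, hd1, hd2, hd3⟩ := Ext1_cut F (fun u => max u.1.val u.2.val)
    (fun v d => (hL k v d).2) hVal (F.card + 1)
  -- fresh sheets
  have hfresh : 1 < (ρ.I \ insert 0 (F.image (Ext1_idx ω))).card := by
    have h2 := Finset.le_card_sdiff (insert 0 (F.image (Ext1_idx ω))) ρ.I
    have h3 : (F.image (Ext1_idx ω)).card ≤ F.card := Finset.card_image_le
    have h4 := Finset.card_insert_le (0 : Lb n) (F.image (Ext1_idx ω))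
    omega
  obtain ⟨s1, hs1, s2, hs2, h12⟩ := Finset.one_lt_card.1 hfresh
  rw [Finset.mem_sdiff, Finset.mem_insert, not_or] at hs1 hs2
  obtain ⟨hs1I, hs10, hs1F⟩ := hs1
  obtain ⟨hs2I, hs20, hs2F⟩ := hs2
  obtain ⟨s, hs⟩ : ∃ s : Vx k → Lb n, s = fun u => if max u.1.val u.2.val ≤ d then 0 else
    if u.2.val ≤ j then s1 else s2 := ⟨_, rfl⟩
  obtain ⟨ζ', hζ⟩ : ∃ ζ' : Lb n → Bool, ζ' = fun i => if i = s1 then true else
    if i = s2 then false else ω.ζ i := ⟨_, rfl⟩
  have hscase : ∀ u, s u = 0 ∨ s u = s1 ∨ s u = s2 := by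
    intro u
    rw [hs]
    dsimp only
    split_ifs
    · exact Or.inl rfl
    · exact Or.inr (Or.inl rfl)
    · exact Or.inr (Or.inr rfl)
  have hsI : ∀ u, s u ∈ ρ.I := by
    intro u
    rcases hscase u with h | h | h <;> rw [h]
    · exact ρ.zero_mem
    · exact hs1I
    · exact hs2I
  have hhold := hR k n ω F s ζ' spec hF
    (by
      intro f hf u x hu hne
      have h1 := Ext1_idx_eq ω f (hF f hf) u x hu
      have h2 : (ω.β u).symm x ∈ F.image (Ext1_idx ω) := by
        rw [h1]
        exact Finset.mem_image_of_mem _ hf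
      have h3 : (ω.β u).symm x ≠ s1 := fun h => hs1F (h ▸ h2)
      have h4 : (ω.β u).symm x ≠ s2 := fun h => hs2F (h ▸ h2)
      refine ⟨fun w => ?_, ?_⟩
      · rcases hscase w with h | h | h <;> rw [h]
        · exact hne
        · exact h3
        · exact h4
      · rw [hζ]
        dsimp only
        rw [if_neg h3, if_neg h4])
    (by
      intro u w x y hf _
      have h1 : u.2.val ≤ j ↔ w.2.val ≤ j := hj3 u w x y hf
      have h2 : max u.1.val u.2.val ≤ d ↔ max w.1.val w.2.val ≤ d := hd3 u w x y hf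
      rw [hs]
      dsimp only
      simp only [h1, h2])
    (by
      intro u x c hf hu
      have h1 : (if (ω.β u).symm x = 0 then ω.χ u = some c else ω.ζ ((ω.β u).symm x) = c) :=
        hF _ hf
      rw [if_pos hu, hχ] at h1
      refine ⟨fun _ => h1, fun hne => ?_⟩
      unfold spec at h1
      rw [hs] at hne ⊢
      dsimp only at hne ⊢
      by_cases hd : max u.1.val u.2.val ≤ d
      · rw [if_pos hd] at hne
        exact absurd rfl hne
      rw [if_neg hd]
      by_cases hj : u.2.val ≤ j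
      · rw [if_pos hj, hζ]
        dsimp only
        rw [if_pos rfl]
        split_ifs at h1 with h3 h4
        · exact Option.some.inj h1
        · exfalso
          omega
      · rw [if_neg hj, hζ]
        dsimp only
        rw [if_neg (Ne.symm h12), if_pos rfl]
        split_ifs at h1 with h3 h4
        · exfalso
          omega
        · exact Option.some.inj h1)
  refine Ext1_easy ρ F v a ⟨fun v => ω.β v * Equiv.swap 0 (s v), ζ', spec⟩ ?_ rfl hhold
    (Or.inl ?_)
  · refine ⟨fun u i hi => ?_, fun i hi => ?_, ?_⟩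
    · show ω.β u (Equiv.swap 0 (s u) i) = ρ.β u i
      have h1 : i ≠ 0 := by
        rintro rfl
        exact hi ρ.zero_mem
      have h2 : i ≠ s u := by
        rintro rfl
        exact hi (hsI u)
      rw [Equiv.swap_apply_of_ne_of_ne h1 h2, hext.beta u i hi]
    · show ζ' i = ρ.ζ i
      rw [hζ]
      dsimp only
      have h1 : i ≠ s1 := by
        rintro rfl
        exact hi hs1I
      have h2 : i ≠ s2 := by
        rintro rfl
        exact hi hs2I
      rw [if_neg h1, if_neg h2, hext.zeta i hi]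
    · show ω.β (crn k) (Equiv.swap 0 (s (crn k)) 0) = 0
      have h1 : s (crn k) = 0 := by
        rw [hs]
        dsimp only
        rw [if_pos]
        show max 0 0 ≤ d
        simp
      rw [h1, Equiv.swap_self, Equiv.refl_apply, hext.corner]
  · show (Equiv.swap 0 (s v)).symm ((ω.β v).symm a) ≠ 0
    rw [h0, Equiv.symm_swap, Equiv.swap_apply_left]
    have h1 : ¬ max v.1.val v.2.val ≤ d := by omega
    rw [hs]
    dsimp only
    rw [if_neg h1]
    split_ifs
    · exact hs10
    · exact hs20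

end Pool.Agent.Work.MP_610017_lc
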