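import Mathlib
import Pool.Agent.Work.MP_610017_lc.StmtsA

/-!
# A09: the extension property for trees (MP_610017_lc)
-/

set_option autoImplicit false

namespace Pool.Agent.Work.MP_610017_lc

theorem prf_Ext (h1 : S_Ext1) (hV : S_StarValid) : S_Ext := by
  intro k n h ρ F T hF hC hT hk hI
  induction T generalizing h F with
  | leaf r => exact ⟨∅, r, Br.leaf r, by rw [Finset.union_empty]; exact hC⟩
  | node v a next ih =>
    cases h with
    | zero => exact hT.elim
    | succ h' =>
      obtain ⟨b, c, hbc, hC1⟩ := h1 k n ρ F v a hF hC (by omega) (by omega)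
      obtain ⟨hcard, hval⟩ := hV k n v a b c
      have hle : (F ∪ star v a b c).card ≤ F.card + 9 :=
        (Finset.card_union_le _ _).trans (by omega)
      obtain ⟨F2, r, hB, hC2⟩ := ih b c h' (F ∪ star v a b c) (by
        intro f hf
        rcases Finset.mem_union.1 hf with hf | hf
        · exact hF f hf
        · exact hval f hf) hC1 (hT b c) (by omega) (by omega)
      exact ⟨star v a b c ∪ F2, r, Br.node v a next b c F2 r hbc hB, by
        rwa [← Finset.union_assoc]⟩

end Pool.Agent.Work.MP_610017_lc
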