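import Mathlib
import Pool.Agent.Work.MP_610017_lc.Bd.B03
import Pool.Agent.Work.MP_610017_lc.Bd.B02

set_option autoImplicit false

namespace Pool.Agent.Work.MP_610017_lc

theorem pf_Main : S_Main := main_of prf_Theta pf_Upper pf_Lower

end Pool.Agent.Work.MP_610017_lc
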