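import Mathlib
import Pool.Agent.Work.MP_610017_lc.Main

/-!
# The general form: arbitrarily slowly growing functions `g` (MP_610017_lc)
-/

set_option autoImplicit false

namespace Pool.Agent.Work.MP_610017_lc

/-! ### The formula -/

/-- the conjunction of the clauses of `Cov` -/
def gen_conj : Fm 2 :=
  .and (theta_lt .zero (.var 0)) (.and theta_f_k_pos (.and theta_f_h_total
    (.and theta_f_u_total (.and theta_f_comm (.and theta_f_col_bot (.and theta_f_col_top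
    (.and theta_f_col_left (.and theta_f_col_right (.and theta_f_start_h
    theta_f_start_u)))))))))

theorem gen_theta {M : Type} (N : Str M) (e : Fin 2 → M) :
    (Fm.neg gen_conj).sat N e ↔ ¬ Cov N (e 0) (e 1) := by
  refine not_congr ?_
  simp only [gen_conj, Fm.sat, theta_s_k_pos, theta_s_h_total, theta_s_u_total,
    theta_s_comm, theta_s_col_bot, theta_s_col_top, theta_s_col_left, theta_s_col_right,
    theta_s_start_h, theta_s_start_u, theta_lt_sat]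
  constructor
  · rintro ⟨h1, h2, h3, h4, h5, h6, h7, h8, h9, h10, h11⟩
    exact ⟨h1, h2, h3, h4, h5, h6, h7, h8, h9, h10, h11⟩
  · rintro ⟨h1, h2, h3, h4, h5, h6, h7, h8, h9, h10, h11⟩
    exact ⟨h1, h2, h3, h4, h5, h6, h7, h8, h9, h10, h11⟩

/-! ### The sequence with `k = g n` -/

theorem gen_arith (c : ℕ) : ∃ s0 : ℕ, ∀ s, s0 ≤ s → (c * (2 * s) + 1) ^ 2 ≤ 2 ^ (2 * s) := by
  refine ⟨3 * c + 4, fun s hs => ?_⟩
  have h1 : ∀ s : ℕ, 4 ≤ s → s ^ 2 ≤ 2 ^ s := by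
    intro s hs
    induction s, hs using Nat.le_induction with
    | base => norm_num
    | succ s hs ih =>
      rw [pow_succ 2 s]
      nlinarith
  have h2 := h1 s (by omega)
  have h3 : c * (2 * s) + 1 ≤ s ^ 2 := by nlinarith
  calc (c * (2 * s) + 1) ^ 2 ≤ (2 ^ s) ^ 2 := Nat.pow_le_pow_left (h3.trans h2) 2
    _ = 2 ^ (2 * s) := by rw [← pow_mul, mul_comm]

theorem gen_seq (hE : S_Exist) (hC : S_Countable) (hM : S_RepMono) (g : ℕ → ℕ)
    (hg1 : ∀ K, ∃ x0, ∀ x, x0 ≤ x → K ≤ g x) (hg2 : ∀ x, 1 ≤ x → 2 ^ g x ≤ x) :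
    ∃ s : SD, ∀ i, s.kk i = g (s.nn i + 1) := by
  classical
  haveI : Countable (Σ v : ℕ, Gm v) := hC
  haveI : Nonempty ((Σ v : ℕ, Gm v) × ℕ) := ⟨(⟨0, Gm.eq Tm.zero Tm.zero⟩, 0)⟩
  obtain ⟨p, hp⟩ := exists_surjective_nat ((Σ v : ℕ, Gm v) × ℕ)
  choose h A m0 hA H using hE
  let AA : ℕ → ℕ → ℕ := fun j B => A (p j).1.1 (p j).1.2 (p j).2 B
  let B : ℕ → ℕ := Seq_B AA
  let Aj : ℕ → ℕ := fun j => AA j (B j)
  let hj : ℕ → ℕ := fun j => h (p j).1.1 (p j).1.2 (p j).2 (B j)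
  let mj : ℕ → ℕ := fun j => m0 (p j).1.1 (p j).1.2 (p j).2 (B j)
  have hAj : ∀ j, 1 ≤ Aj j := fun j => hA _ _ _ _
  have hBj : ∀ j, B j = ∏ l ∈ Finset.range j, Aj l := fun j => Seq_B_prod AA j
  have Hj : ∀ (j k n m : ℕ) (ρ : Res k n), mj j ≤ m → (k + 1) ^ 2 ≤ m → ρ.I.card = m ^ Aj j →
      n + 1 ≤ (m ^ Aj j) ^ B j → ∃ ρ' : Res k n, ρ'.Le ρ ∧ ρ'.I.card = m ∧
      ∀ e : Fin (p j).1.1 → ℕ, (∀ l, e l ≤ (n + 1) ^ (p j).2) →
        ∃ T, Rep ρ' (hj j) (p j).1.2 e T :=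
    fun j k n m ρ h1 h2 h3 h4 => H _ _ _ _ k n m ρ h1 h2 h3 h4
  have key : ∀ i : ℕ, ∃ (k n : ℕ) (ρ : Res k n), i ≤ k ∧ i ≤ ρ.I.card ∧ 2 ^ k ≤ n + 1 ∧
      k = g (n + 1) ∧
      ∀ j ≤ i, ∀ e : Fin (p j).1.1 → ℕ, (∀ l, e l ≤ (n + 1) ^ (p j).2) →
        ∃ T, Rep ρ (hj j) (p j).1.2 e T := by
    intro i
    obtain ⟨P, hP⟩ : ∃ P, P = ∏ l ∈ Finset.Ico 0 (i + 1), Aj l := ⟨_, rfl⟩
    have hP1 : 1 ≤ P := by
      rw [hP]
      exact Finset.one_le_prod' fun l _ => hAj l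
    obtain ⟨s0, hs0⟩ := gen_arith P
    obtain ⟨x0, hx0⟩ := hg1 i
    obtain ⟨r, hr1, hr2, hr3, hr4⟩ : ∃ r : ℕ, s0 ≤ r ∧ x0 ≤ r ∧ i + 2 ≤ r ∧
        ∀ j ≤ i, mj j ≤ r := by
      refine ⟨s0 + x0 + (i + 2) + ∑ j ∈ Finset.range (i + 1), mj j, by omega, by omega,
        by omega, fun j hj => ?_⟩
      have := Finset.single_le_sum (f := mj) (s := Finset.range (i + 1))
        (fun _ _ => Nat.zero_le _) (Finset.mem_range.2 (Nat.lt_succ_of_le hj))
      omega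
    obtain ⟨m, hm⟩ : ∃ m : ℕ, m = 2 ^ (2 * r) := ⟨_, rfl⟩
    have hrm : r ≤ m := by
      have h1 : 2 * r < 2 ^ (2 * r) := Nat.lt_two_pow_self
      omega
    obtain ⟨a, ha⟩ : ∃ a : ℕ → ℕ, ∀ j, a j = m ^ ∏ l ∈ Finset.Ico j (i + 1), Aj l :=
      ⟨_, fun _ => rfl⟩
    have ha1 : ∀ j, m ≤ a j := by
      intro j
      rw [ha]
      exact Seq_le_pow _ _ (Finset.one_le_prod' fun l _ => hAj l)
    have ha2 : ∀ j ≤ i, a j = a (j + 1) ^ Aj j := by
      intro j hji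
      rw [ha, ha, ← pow_mul, Finset.prod_eq_prod_Ico_succ_bot (Nat.lt_succ_of_le hji), mul_comm]
    have ha3 : ∀ j ≤ i, a 0 = a j ^ B j := by
      intro j hji
      rw [ha, ha, ← pow_mul, hBj, mul_comm, Finset.prod_range_mul_prod_Ico _ (by omega),
        Finset.range_eq_Ico]
    have ha4 : a (i + 1) = m := by
      rw [ha, Finset.Ico_self, Finset.prod_empty, pow_one]
    obtain ⟨n, hn⟩ : ∃ n, n + 1 = a 0 := ⟨a 0 - 1, by have := ha1 0; omega⟩
    obtain ⟨k, hk⟩ : ∃ k, k = g (n + 1) := ⟨_, rfl⟩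
    have hk1 : 2 ^ k ≤ n + 1 := by
      rw [hk]
      exact hg2 _ (by omega)
    have hk2 : i ≤ k := by
      rw [hk]
      exact hx0 _ (by rw [hn]; have := ha1 0; omega)
    have hk3 : k ≤ P * (2 * r) := by
      have h1 : n + 1 = 2 ^ (P * (2 * r)) := by
        rw [hn, ha, ← hP, hm, ← pow_mul, mul_comm]
      rw [h1] at hk1
      exact (Nat.pow_le_pow_iff_right (by norm_num)).1 hk1
    have hm2 : (k + 1) ^ 2 ≤ m := by
      calc (k + 1) ^ 2 ≤ (P * (2 * r) + 1) ^ 2 := Nat.pow_le_pow_left (by omega) 2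
        _ ≤ m := by
          rw [hm]
          exact hs0 r hr1
    have hm4 : ∀ j ≤ i, mj j ≤ m := fun j hj => (hr4 j hj).trans hrm
    have claim : ∀ j ≤ i + 1, ∃ ρ : Res k n, ρ.I.card = a j ∧
        ∀ j' < j, ∀ e : Fin (p j').1.1 → ℕ, (∀ l, e l ≤ (n + 1) ^ (p j').2) →
          ∃ T, Rep ρ (hj j') (p j').1.2 e T := by
      intro j
      induction j with
      | zero =>
        intro _
        refine ⟨Seq_top k n, ?_, fun j' hj' => absurd hj' (Nat.not_lt_zero _)⟩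
        show (Finset.univ : Finset (Lb n)).card = a 0
        rw [Finset.card_univ, Fintype.card_fin, hn]
      | succ j ih =>
        intro hji
        obtain ⟨ρ, hρ1, hρ2⟩ := ih (by omega)
        have hji' : j ≤ i := by omega
        obtain ⟨ρ', h1, h2, h3⟩ := Hj j k n (a (j + 1)) ρ ((hm4 j hji').trans (ha1 _))
          (hm2.trans (ha1 _)) (by rw [hρ1, ha2 j hji']) (by rw [← ha2 j hji', ← ha3 j hji', hn])
        refine ⟨ρ', h2, fun j' hj' e he => ?_⟩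
        rcases Nat.lt_succ_iff_lt_or_eq.1 hj' with hlt | heq
        · obtain ⟨T, hT⟩ := hρ2 j' hlt e he
          exact ⟨T, hM _ _ _ _ _ _ _ _ _ _ h1 le_rfl hT⟩
        · subst heq
          exact h3 e he
    obtain ⟨ρ, hρ1, hρ2⟩ := claim (i + 1) le_rfl
    refine ⟨k, n, ρ, hk2, ?_, hk1, hk, fun j hji => hρ2 j (Nat.lt_succ_of_le hji)⟩
    rw [hρ1, ha4]
    omega
  choose kk nn ρ h1 h2 h3 h5 h4 using key
  refine ⟨⟨kk, nn, ρ, h1, h2, h3, fun v φ J => ?_⟩, h5⟩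
  obtain ⟨j, hj1⟩ := hp (⟨v, φ⟩, J)
  have h5 : ∀ (x : (Σ v : ℕ, Gm v) × ℕ), p j = x → ∀ i, j ≤ i → ∀ e : Fin x.1.1 → ℕ,
      (∀ l, e l ≤ (nn i + 1) ^ x.2) → ∃ T, Rep (ρ i) (hj j) x.1.2 e T := by
    rintro x rfl i hi
    exact h4 i j hi
  exact ⟨hj j, j, fun i hi e he => h5 _ hj1 i hi e he⟩

/-! ### The theorem -/

/-- The general form. -/
def S_General : Prop := ∃ θ : Fm 2,
  (∀ (M : Type) (N : Str M), IDelta0 N → ∀ (e : Fin 2 → M) (z : M), IsPow N (e 0) (e 1) z →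
    θ.sat N e) ∧
  ∀ g : ℕ → ℕ, Filter.Tendsto g Filter.atTop Filter.atTop → (∀ x, 1 ≤ x → 2 ^ g x ≤ x) →
    ∃ (M : Type) (N : Str M), IDelta0 N ∧
      (∀ (v : ℕ) (φ : Fm v), φ.RFree → (∀ e : Fin v → ℕ, φ.sat stdN e) →
        ∀ e : Fin v → M, φ.sat N e) ∧
      ∃ e : Fin 2 → M, ¬ θ.sat N e ∧
        ∀ φ : Fm 2, φ.RFree → (∃ x0, ∀ x, x0 ≤ x → φ.sat stdN ![x, g x]) → φ.sat N e

theorem pf_General : S_General := by
  refine ⟨.neg gen_conj, ?_, fun g hg1 hg2 => ?_⟩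
  · intro M N hN e z hz
    rw [gen_theta]
    intro hc
    obtain ⟨i1, i2, i3, hG⟩ := pf_Alg M N hN
    obtain ⟨f, hf, _⟩ := prf_PowF M N hG (e 0) (e 1) z hz
    exact pf_UpperG M N hG (e 0) (e 1) (e 1) f hc le_rfl hf
  · obtain ⟨s, hs⟩ := gen_seq pf_Exist prf_Countable pf_RepMono g
      (fun K => Filter.eventually_atTop.1 (hg1.eventually_ge_atTop K)) hg2
    refine ⟨MM s, MStr s, ⟨prf_RobM s, pf_IndM s⟩, prf_LosM prf_TmVal s, ![nM s, kM s], ?_, ?_⟩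
    · rw [gen_theta, not_not]
      obtain ⟨a1, a2, a3, a4, a5, a6, a7⟩ := prf_HypA prf_Rels s _ rfl _ _ rfl rfl
      obtain ⟨b1, b2, b3, b4, b5, b6⟩ := prf_HypB prf_Rels s _ rfl _ _ rfl rfl
      refine ⟨?_, a1, a5, a6, a7, b1, b2, b3, b4, b5, b6⟩
      show (MStr s).lt (MStr s).zero (nM s)
      rw [MStr_zero, nM, MStr_lt]
      exact Filter.Eventually.of_forall fun i => Nat.succ_pos _
    · intro γ hγ1 hγ2
      obtain ⟨x0, hx0⟩ := hγ2
      have h1 : (![nM s, kM s] : Fin 2 → MM s) = fun j => MM.mk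
          ((![⟨fun i => s.nn i + 1, 1, Filter.Eventually.of_forall fun i => by simp⟩,
            ⟨fun i => s.kk i, 1, Filter.Eventually.of_forall fun i => by
              have h1 := s.pow_le i
              have h2 : s.kk i < 2 ^ s.kk i := Nat.lt_two_pow_self
              rw [pow_one]
              exact h2.le.trans h1⟩] : Fin 2 → BSeq s) j) := by
        funext j
        fin_cases j <;> rfl
      rw [h1, LosM_main prf_TmVal s γ hγ1]
      filter_upwards [UU_ge x0] with i hi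
      have h2 := hx0 (s.nn i + 1) (by
        have h3 := s.pow_le i
        have h4 := s.le_kk i
        have h5 : s.kk i < 2 ^ s.kk i := Nat.lt_two_pow_self
        omega)
      refine (iff_of_eq (congrArg (γ.sat stdN) ?_)).1 h2
      funext j
      fin_cases j
      · rfl
      · exact (hs i).symm

end Pool.Agent.Work.MP_610017_lc
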